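import Pool.Agent.H854.K.Seq
import Pool.Agent.H854.K.Frob

/-!
# Semisimplicity of Frobenius, and one sequence of smooth affine cubic hypersurfaces

For `n ≥ 1` let `G_n` be the following polynomial with integral coefficients (`univ ℤ n`). A relation
`r` of size `n` is one of the equations `x_i x_j = x_l`, `x_i + x_j = x_l`, `x_i = 1` with
`i, j, l < n`. There are variables `x_i` and `z_ij` for `i, j < n`, and `c_r` for all relations `r`.
The equations (`eqn`) are

  `z_ij - x_i x_j`,  `c_r ^ 2 - c_r`,  `c_r ρ_r`,

where `ρ_r` is the linear polynomial `z_ij - x_l`, `x_i + x_j - x_l` or `x_i - 1` of the relation.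
`G_n` is the sum of the equations multiplied by further variables `t_e`, one for each equation; it is
a cubic polynomial. Let `E_n` be the affine cubic hypersurface `y ^ 2 - y = G_n`, which is smooth over
all fields, and for a prime number `p` let `Y_n` be the covering `y ^ p - y = G_n` of an affine space
over `F_p`, which is finite and étale.

Let `k = F_p`, and let `F` be the field of `ℓ`-adic numbers. We consider Borel–Moore homology
`H_{2 n + m}(X̄, ℚ_ℓ(-n))`, the dual of `H_c^{2 n + m}(X̄, ℚ_ℓ(n))`, for all separated schemes `X` of
finite type: `(H.g m).M X n` is this group, a module over the polynomial ring `F[t]`, on which `t` acts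
as the Frobenius. If `V` is smooth and proper of dimension `d`, then by Poincaré duality it is
`H^r(V̄)` up to a twist, for `r = 2 d - 2 n - m`. The properties that are used (`Sys.IsHomology`) are
the long exact sequences of a closed subscheme and its open complement, the flat pull-back with its
compatibilities, and the invariance under affine bundles. `SemisimpleOn H X` says that the Frobenius
acts semisimply on all homology groups of `X` (it is annihilated by a polynomial without multiple
factors). `BuiltFromSmoothProper` says that the homology of a variety is the sum of finitely many
subspaces (the generalized eigenspaces for the eigenvalues of a given weight) that are subquotients of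
the cohomology of smooth proper varieties (de Jong, Deligne). `IsRestriction` describes the relation
between the theories over `F_p` and over `F_q` (Shapiro's lemma).

**Theorem.** The following statements are equivalent.

* The Frobenius acts semisimply on the (co)homology with compact supports of `E_n`, for infinitely
  many `n`;
* the Frobenius acts semisimply on the (co)homology with compact supports of `Y_n`, for infinitely
  many `n`;
* the Frobenius acts semisimply on the cohomology of all smooth proper varieties over `F_p`;
* the Frobenius acts semisimply on the (co)homology with compact supports of all, possibly singular or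
  open, varieties over all finite fields of characteristic `p`.

So Q1 is a question on one explicit sequence of smooth affine cubic hypersurfaces with integral
coefficients. Here the varieties are the schemes of finite type with an affine bundle whose total
space is affine; by Jouanolou these include all quasi-projective schemes.

Idea of the proof. `G_n` is linear in the variables `t_e`. Let `W_n` be the zero set of the equations
in the affine space `S` with the coordinates `x_i, z_ij, c_r`. The map `E_n → S` is an affine bundle
over the complement of `W_n`, and the disjoint union of two affine bundles over `W_n`. It follows that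
the homology of `E_n` is the direct sum of the homology of one of these two bundles and of the image
of the homology of `S`. The scheme `W_n` is the disjoint union over all sets `s` of relations
(`c_r = 1` for `r` in `s`, `c_r = 0` for the others) of the schemes defined by the equations in `s`, and
every affine scheme of finite type over `F_p` is defined by relations of the three kinds, for all large
`n`. So for every variety `X` the homology of `X` is, up to a shift, a direct summand of the homology
of `E_n` for all large `n`.
-/

set_option autoImplicit false

open CategoryTheory AlgebraicGeometry Pool.Agent.H854.K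
open Pool.Agent.H854.SQ (IsPrimeField univ Transfers totalDegree_univ map_univ)
open Pool.Agent.H854.AS (pol_two pol_prime)

namespace Pool.Agent.Results.MP_93fb11_ag.OneSequenceOfCubics

section Defs

variable {k : Type} [Field k] {F : Type} [Field F]

/-- The Frobenius acts semisimply on all homology groups of `X`. -/
def SemisimpleOn (H : Sys k (Polynomial F)) (X : Sch k) : Prop :=
  ∀ m n : ℤ, ActsSemisimply ((H.g m).M X n)

/-- The Frobenius acts semisimply on all homology groups of the schemes with the property `S`. -/
def SemisimpleFor (H : Sys k (Polynomial F)) (S : Sch k → Prop) : Prop :=
  ∀ X, S X → SemisimpleOn H X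

/-- The Frobenius acts semisimply on the homology of infinitely many of the coverings
`y ^ m - y = G_n`. -/
def SemisimpleForInfinitelyMany (H : Sys k (Polynomial F)) (m : ℕ) : Prop :=
  ∃ᶠ n in Filter.atTop, SemisimpleOn H (seq k m n)

/-- The homology of every variety is the sum of finitely many subspaces that are isomorphic to
subquotients of the homology of smooth proper varieties. -/
def BuiltFromSmoothProper (H : Sys k (Polynomial F)) : Prop :=
  ∀ X, IsAdm X → ∀ m n : ℤ, ∃ (a : ℕ) (U : Fin a → Submodule (Polynomial F) ((H.g m).M X n)),
    ⨆ i, U i = ⊤ ∧ ∀ i, ∃ (X' : Sch k) (m' n' : ℤ), IsSmoothProper X' ∧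
      IsSubquotient (U i) ((H.g m').M X' n')

/-- The relation between the theories over the finite field `k` and over its extension `K` of degree
`d`: the homology of a scheme over `K`, considered as a scheme over `k`, is induced. -/
def IsRestriction (d : ℕ) {K : Type} [Field K] [Algebra k K] (H : Sys k (Polynomial F))
    (H' : Sys K (Polynomial F)) : Prop :=
  ∀ (X : Sch K) (m n : ℤ), IsInduced d ((H.g m).M (down k X) n) ((H'.g m).M X n)

/-- The Frobenius acts semisimply on the homology of all varieties over the finite extensions
of `k`. -/
def SemisimpleForExtensions (H : Sys k (Polynomial F)) : Prop :=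
  ∀ (K : Type) [Field K] [Algebra k K] [Module.Finite k K] (H' : Sys K (Polynomial F)),
    IsRestriction (Module.finrank k K) H H' → SemisimpleFor H' IsAdm

end Defs

theorem transfers_semisimple {k : Type} [Field k] {F : Type} [Field F] {H : Sys k (Polynomial F)}
    (hH : H.IsHomology) : Transfers fun (X : Sch k) n => ∀ m, ActsSemisimply ((H.g m).M X n) :=
  transfers hH (A := fun _ V => ActsSemisimply V) fun _ _ _ hVW h => h.of_summand hVW

/-- **The semisimplicity of Frobenius on the cohomology of all varieties over finite fields is a
statement on one sequence of smooth affine cubic hypersurfaces.** -/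
theorem result {k : Type} [Field k] (hk : IsPrimeField k) (p : ℕ) [Fact p.Prime] [CharP k p]
    {F : Type} [Field F] (H : Sys k (Polynomial F)) (hH : H.IsHomology)
    (hB : BuiltFromSmoothProper H) :
    List.TFAE [SemisimpleForInfinitelyMany H 2, SemisimpleForInfinitelyMany H p,
      SemisimpleFor H IsSmoothProper, SemisimpleFor H IsAdm ∧ SemisimpleForExtensions H] ∧
    ∀ n : ℕ, 0 < n → Smooth (str (seq k 2 n)) ∧ Smooth (str (seq k p n)) ∧
      (univ ℤ n).totalDegree ≤ 3 ∧ MvPolynomial.map (Int.castRingHom k) (univ ℤ n) = univ k n := by
  refine ⟨?_, fun n hn => ⟨smooth_seq_two hn, smooth_seq_prime p hn, totalDegree_univ ℤ n,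
    map_univ _ n⟩⟩
  have key : SemisimpleFor H IsAdm → SemisimpleFor H IsAdm ∧ SemisimpleForExtensions H := fun h =>
    ⟨h, fun K _ _ _ H' hI X hX m n =>
      (h _ (isAdm_down hX) m n).of_induced Module.finrank_pos (hI X m n)⟩
  tfae_have 1 → 4 := fun h => key fun X hX m n =>
    reduce (transfers_semisimple hH) hk pol_two (h.mono fun a ha d m => ha m d) X hX n m
  tfae_have 2 → 4 := fun h => key fun X hX m n =>
    reduce (transfers_semisimple hH) hk (pol_prime p) (h.mono fun a ha d m => ha m d) X hX n m
  tfae_have 4 → 3 := fun h X hX => h.1 X hX.1
  tfae_have 3 → 4 := by
    refine fun h => key fun X hX m n => ?_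
    obtain ⟨a, U, hU, hs⟩ := hB X hX m n
    refine ActsSemisimply.of_subquotients U hU fun i => ?_
    obtain ⟨X', m', n', hX', hs'⟩ := hs i
    exact ⟨_, h X' hX' m' n', hs'⟩
  tfae_have 4 → 1 := fun h => Filter.Eventually.frequently (Filter.Eventually.of_forall
    fun n => h.1 _ (isAdm_seq pol_two n))
  tfae_have 4 → 2 := fun h => Filter.Eventually.frequently (Filter.Eventually.of_forall
    fun n => h.1 _ (isAdm_seq (pol_prime p) n))
  tfae_finish

end Pool.Agent.Results.MP_93fb11_ag.OneSequenceOfCubics
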